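import Pool.Agent.R929.SL.Loci

/-!
# The full support loci
-/

namespace Pool.Agent.R929.SL

open Module Finset Pool.Agent.TH125.Tw Pool.Agent.R929.OD

/-- The support loci of a smooth projective variety `X` of dimension `n`:

* `P`: the points of `Pic⁰(X)`, with the Zariski topology; `zero` is the origin and `tors` is the set
  of torsion points;
* `coh α`: the cohomology of `X` with values in the unitary flat line bundle `α`, with
  `H^{p,q} = H^q(X, Ω^p ⊗ α)`;
* `top_iff`: `H^n(X, ω ⊗ α)`, the dual of `H^0(X, α⁻¹)`, is nonzero only for `α = 0`;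
* `closed`: semicontinuity;
* `dense`: the components are translates of abelian subvarieties by torsion points (Simpson), so
  their torsion points are dense. -/
structure FullLoci (n : ℕ) where
  P : Type
  [top : TopologicalSpace P]
  zero : P
  tors : Set P
  coh : P → Twisted n
  top_iff : ∀ α, (coh α).hodgeNumber n n ≠ 0 ↔ α = zero
  closed : ∀ i, IsClosed (Locus coh i)
  dense : ∀ i, Locus coh i ⊆ closure (Locus coh i ∩ tors)

attribute [instance] FullLoci.top

variable {n : ℕ}

/-- The locus `V^i(ω_X)` of the line bundles `α` with `H^i(X, ω ⊗ α) ≠ 0`. -/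
def FullLoci.V (A : FullLoci n) (i : ℕ) : Set A.P := Locus A.coh i

/-- The part of the Rouquier isomorphism `Aut⁰(X) × Pic⁰(X) ≃ Aut⁰(Y) × Pic⁰(Y)` of a derived
equivalence which concerns line bundles:

* `S`, `T`: the closed subgroups of the `α` and `β` which correspond to each other under the
  isomorphism, `F (1, α) = (1, β)`, and `e` the isomorphism between them;
* `transform`: for torsion points the equivalence induces an isomorphism of the twisted
  cohomologies which preserves `p - q` and the Mukai pairings (by passing to the cyclic étale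
  coverings given by `α` and `β`). -/
structure FullRouquier (A B : FullLoci n) where
  S : Set A.P
  T : Set B.P
  e : S ≃ₜ T
  zero_S : A.zero ∈ S
  map_zero : (e ⟨A.zero, zero_S⟩ : B.P) = B.zero
  map_tors : ∀ α : S, (α : A.P) ∈ A.tors ↔ (e α : B.P) ∈ B.tors
  transform : ∀ α : S, (α : A.P) ∈ A.tors → Transform (A.coh α) (B.coh (e α))

/-- The isomorphism `e` maps `V^i(ω_X)` onto `V^i(ω_Y)`, if these loci are contained in the subgroups
on which `e` is defined. -/
def FullRouquier.Matches {A B : FullLoci n} (F : FullRouquier A B) (i : ℕ) : Prop :=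
  A.V i ⊆ F.S → B.V i ⊆ F.T → ∀ α : F.S, (α : A.P) ∈ A.V i ↔ (F.e α : B.P) ∈ B.V i

/-- One direction. -/
theorem full_transport {P Q : Type} [TopologicalSpace P] [TopologicalSpace Q] {S : Set P}
    {T : Set Q} (e : S ≃ₜ T) {VP tP : Set P} {VQ : Set Q} (hS : VP ⊆ S)
    (hd : VP ⊆ closure (VP ∩ tP)) (hcl : IsClosed VQ)
    (h : ∀ α : S, (α : P) ∈ tP → (α : P) ∈ VP → (e α : Q) ∈ VQ) (α : S) (hα : (α : P) ∈ VP) :
    (e α : Q) ∈ VQ := by
  have hc : Continuous fun x : S => (e x : Q) := continuous_subtype_val.comp e.continuous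
  have h1 : α ∈ closure (Subtype.val ⁻¹' (VP ∩ tP) : Set S) := by
    rw [closure_subtype, Subtype.image_preimage_coe,
      Set.inter_eq_right.2 (Set.inter_subset_left.trans hS)]
    exact hd hα
  have h2 : closure (Subtype.val ⁻¹' (VP ∩ tP) : Set S) ⊆ (fun x : S => (e x : Q)) ⁻¹' VQ :=
    closure_minimal (fun y hy => h y hy.2 hy.1) (hcl.preimage hc)
  exact h2 h1

theorem full_of {A B : FullLoci n} (F : FullRouquier A B) {i : ℕ}
    (h : ∀ α : F.S, (α : A.P) ∈ A.tors →
      (A.coh α).hodgeNumber n i = (B.coh (F.e α)).hodgeNumber n i) : F.Matches i := by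
  intro hS hT α
  constructor
  · refine full_transport F.e hS (A.dense i) (B.closed i) ?_ α
    intro α ht hα
    show (B.coh (F.e α)).hodgeNumber n i ≠ 0
    rw [← h α ht]
    exact hα
  · intro hα
    have h4 := full_transport F.e.symm hT (B.dense i) (A.closed i) (by
      intro β ht hβ
      have ht' : (F.e.symm β : A.P) ∈ A.tors := by
        rw [F.map_tors, Homeomorph.apply_symm_apply]
        exact ht
      show (A.coh (F.e.symm β)).hodgeNumber n i ≠ 0
      rw [h _ ht', Homeomorph.apply_symm_apply]
      exact hβ) (F.e α) hα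
    rw [Homeomorph.symm_apply_apply] at h4
    exact h4

/-- The loci `V^i(ω)` for `i ≤ 2` and `i ≥ n`. -/
theorem full_low {A B : FullLoci n} (F : FullRouquier A B) {i : ℕ} (hi : i ≤ 2 ∨ n ≤ i) :
    F.Matches i := by
  rcases hi with hi | hi
  · exact full_of F fun α ht => low_eq (F.transform α ht) hi
  rcases Nat.lt_or_ge n i with h | h
  · refine full_of F fun α _ => ?_
    rw [(A.coh α).hodge_large (Or.inr h), (B.coh (F.e α)).hodge_large (Or.inr h)]
  have hin : i = n := le_antisymm h hi
  subst hin
  intro _ _ α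
  have h1 : (α : A.P) ∈ A.V i ↔ (α : A.P) = A.zero := A.top_iff α
  have h2 : (F.e α : B.P) ∈ B.V i ↔ (F.e α : B.P) = B.zero := B.top_iff _
  rw [h1, h2]
  constructor
  · intro h3
    have h4 : α = ⟨A.zero, F.zero_S⟩ := Subtype.ext h3
    rw [h4, F.map_zero]
  · intro h3
    have h4 : F.e α = F.e ⟨A.zero, F.zero_S⟩ := Subtype.ext (h3.trans F.map_zero.symm)
    rw [F.e.injective h4]

/-- All loci if the canonical classes have defect at most two. -/
theorem full_defect {A B : FullLoci n} (F : FullRouquier A B) (s : ℤ)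
    (hA : ∀ α ∈ A.tors, DefectTwo (A.coh α) (s • (A.coh α).chern))
    (hB : ∀ β ∈ B.tors, DefectTwo (B.coh β) (s • (B.coh β).chern)) (i : ℕ) : F.Matches i := by
  refine full_of F fun α ht => main (hA α ht) (hB (F.e α) ((F.map_tors α).1 ht))
    (F.transform α ht) ?_ n i
  intro x
  rw [LinearMap.smul_apply, map_zsmul, intertwines_chern, LinearMap.smul_apply]

end Pool.Agent.R929.SL
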