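import Pool.Agent.R929.OE.Chow

/-!
# Support loci through the origin
-/

namespace Pool.Agent.R929.SL

open Module Finset Pool.Agent.TH125.Tw Pool.Agent.R929.OD

/-- The irreducible components of a subset. -/
def IsComponent {T : Type} [TopologicalSpace T] (S Z : Set T) : Prop :=
  Maximal (fun Z => IsIrreducible Z ∧ Z ⊆ S) Z

/-- The line bundles `α` with `H^i(X, ω ⊗ α) ≠ 0`. -/
def Locus {P : Type} {n : ℕ} (coh : P → Twisted n) (i : ℕ) : Set P :=
  {α | (coh α).hodgeNumber n i ≠ 0}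

/-- The support loci of a smooth projective variety `X` of dimension `n`:

* `P`: the points of `Pic⁰(X)`, with the Zariski topology; `zero` is the origin and `tors` is the set
  of torsion points;
* `coh α`: the cohomology of `X` with values in the unitary flat line bundle `α`, with
  `H^{p,q} = H^q(X, Ω^p ⊗ α)`;
* `top_iff`: `H^n(X, ω ⊗ α)`, the dual of `H^0(X, α⁻¹)`, is nonzero only for `α = 0`;
* `closed`: semicontinuity;
* `dense`: the components through the origin are abelian subvarieties (Green and Lazarsfeld), so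
  their torsion points are dense. -/
structure LociData (n : ℕ) where
  P : Type
  [top : TopologicalSpace P]
  zero : P
  tors : Set P
  coh : P → Twisted n
  top_iff : ∀ α, (coh α).hodgeNumber n n ≠ 0 ↔ α = zero
  closed : ∀ i, IsClosed (Locus coh i)
  dense : ∀ (i : ℕ) (Z : Set P), IsComponent (Locus coh i) Z → zero ∈ Z → Z ⊆ closure (Z ∩ tors)

attribute [instance] LociData.top

variable {n : ℕ}

/-- The locus `V^i(ω_X)` of the line bundles `α` with `H^i(X, ω ⊗ α) ≠ 0`. -/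
def LociData.V (A : LociData n) (i : ℕ) : Set A.P := Locus A.coh i

/-- The union `V^i(ω_X)_0` of the irreducible components through the origin. -/
def LociData.V0 (A : LociData n) (i : ℕ) : Set A.P :=
  {α | ∃ Z, IsComponent (A.V i) Z ∧ A.zero ∈ Z ∧ α ∈ Z}

/-- The part of the Rouquier isomorphism `Aut⁰(X) × Pic⁰(X) ≃ Aut⁰(Y) × Pic⁰(Y)` of a derived
equivalence which concerns line bundles:

* `S`, `T`: the closed subgroups of the `α` and `β` which correspond to each other under the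
  isomorphism, `F (1, α) = (1, β)`, and `e` the isomorphism between them;
* `transform`: for torsion points the equivalence induces an isomorphism of the twisted
  cohomologies which preserves `p - q` and the Mukai pairings (by passing to the cyclic étale
  coverings given by `α` and `β`);
* `mem_S`, `mem_T`: the components through the origin of the loci `V^i` are contained in the two
  subgroups (Lombardi, Popa and Schnell). -/
structure Rouquier (A B : LociData n) where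
  S : Set A.P
  T : Set B.P
  e : S ≃ₜ T
  zero_S : A.zero ∈ S
  map_zero : (e ⟨A.zero, zero_S⟩ : B.P) = B.zero
  map_tors : ∀ α : S, (α : A.P) ∈ A.tors ↔ (e α : B.P) ∈ B.tors
  transform : ∀ α : S, (α : A.P) ∈ A.tors → Transform (A.coh α) (B.coh (e α))
  mem_S : ∀ (i : ℕ) (Z : Set A.P), IsComponent (A.V i) Z → A.zero ∈ Z → Z ⊆ S
  mem_T : ∀ (i : ℕ) (Z : Set B.P), IsComponent (B.V i) Z → B.zero ∈ Z → Z ⊆ T

/-- The isomorphism `e` maps `V^i(ω_X)_0` onto `V^i(ω_Y)_0`. -/
def Rouquier.Matches {A B : LociData n} (F : Rouquier A B) (i : ℕ) : Prop :=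
  A.V0 i ⊆ F.S ∧ B.V0 i ⊆ F.T ∧ ∀ α : F.S, (α : A.P) ∈ A.V0 i ↔ (F.e α : B.P) ∈ B.V0 i

/-- Every irreducible subset is contained in a component. -/
theorem exists_component {T : Type} [TopologicalSpace T] {S Z : Set T} (hZ : IsIrreducible Z)
    (hZS : Z ⊆ S) : ∃ W, IsComponent S W ∧ Z ⊆ W := by
  obtain ⟨W, hW1, hW2⟩ := zorn_subset_nonempty {W : Set T | IsIrreducible W ∧ W ⊆ S} (by
    intro c hc hchain hne
    refine ⟨⋃₀ c, ⟨⟨?_, ?_⟩, ?_⟩, fun s hs => Set.subset_sUnion_of_mem hs⟩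
    · obtain ⟨s, hs⟩ := hne
      obtain ⟨x, hx⟩ := (hc hs).1.1
      exact ⟨x, s, hs, hx⟩
    · intro u v hu hv ⟨x, ⟨s, hs, hxs⟩, hxu⟩ ⟨y, ⟨t, ht, hyt⟩, hyv⟩
      rcases hchain.total hs ht with h | h
      · obtain ⟨z, hz1, hz2⟩ := (hc ht).1.2 u v hu hv ⟨x, h hxs, hxu⟩ ⟨y, hyt, hyv⟩
        exact ⟨z, ⟨t, ht, hz1⟩, hz2⟩
      · obtain ⟨z, hz1, hz2⟩ := (hc hs).1.2 u v hu hv ⟨x, hxs, hxu⟩ ⟨y, h hyt, hyv⟩
        exact ⟨z, ⟨s, hs, hz1⟩, hz2⟩
    · exact Set.sUnion_subset fun s hs => (hc hs).2) Z ⟨hZ, hZS⟩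
  exact ⟨W, hW2, hW1⟩

/-- One direction. -/
theorem transport {P Q : Type} [TopologicalSpace P] [TopologicalSpace Q] {S : Set P} {T : Set Q}
    (e : S ≃ₜ T) {VP tP : Set P} {VQ : Set Q} {zP : P} {zQ : Q} (hzS : zP ∈ S)
    (hz : (e ⟨zP, hzS⟩ : Q) = zQ) (hmem : ∀ Z, IsComponent VP Z → zP ∈ Z → Z ⊆ S)
    (hd : ∀ Z, IsComponent VP Z → zP ∈ Z → Z ⊆ closure (Z ∩ tP)) (hcl : IsClosed VQ)
    (h : ∀ α : S, (α : P) ∈ tP → (α : P) ∈ VP → (e α : Q) ∈ VQ) (α : S)
    (hα : ∃ Z, IsComponent VP Z ∧ zP ∈ Z ∧ (α : P) ∈ Z) :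
    ∃ Z, IsComponent VQ Z ∧ zQ ∈ Z ∧ (e α : Q) ∈ Z := by
  obtain ⟨Z, hZ, h0, hαZ⟩ := hα
  have hZS := hmem Z hZ h0
  let Z' : Set S := Subtype.val ⁻¹' Z
  have hZ' : IsIrreducible Z' := by
    refine ⟨⟨α, hαZ⟩, ?_⟩
    rintro u v hu hv ⟨x, hxZ, hxu⟩ ⟨y, hyZ, hyv⟩
    obtain ⟨U, hU, rfl⟩ := isOpen_induced_iff.1 hu
    obtain ⟨V, hV, rfl⟩ := isOpen_induced_iff.1 hv
    obtain ⟨z, hz, hzU, hzV⟩ := hZ.1.1.2 U V hU hV ⟨x, hxZ, hxu⟩ ⟨y, hyZ, hyv⟩
    exact ⟨⟨z, hZS hz⟩, hz, hzU, hzV⟩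
  have hc : Continuous fun x : S => (e x : Q) := continuous_subtype_val.comp e.continuous
  have hW : IsIrreducible ((fun x : S => (e x : Q)) '' Z') := hZ'.image _ hc.continuousOn
  have hWV : ((fun x : S => (e x : Q)) '' Z') ⊆ VQ := by
    rintro _ ⟨x, hx, rfl⟩
    have h1 : x ∈ closure (Subtype.val ⁻¹' (Z ∩ tP) : Set S) := by
      rw [closure_subtype, Subtype.image_preimage_coe,
        Set.inter_eq_right.2 (Set.inter_subset_left.trans hZS)]
      exact hd Z hZ h0 hx
    have h2 : closure (Subtype.val ⁻¹' (Z ∩ tP) : Set S) ⊆ (fun x : S => (e x : Q)) ⁻¹' VQ :=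
      closure_minimal (fun y hy => h y hy.2 (hZ.1.2 hy.1)) (hcl.preimage hc)
    exact h2 h1
  obtain ⟨W', hW', hWW'⟩ := exists_component hW hWV
  exact ⟨W', hW', hWW' ⟨⟨zP, hzS⟩, h0, hz⟩, hWW' ⟨α, hαZ, rfl⟩⟩

/-- Equality of the Hodge numbers of the twisted cohomologies implies that the loci match. -/
theorem matches_of {A B : LociData n} (F : Rouquier A B) {i : ℕ}
    (h : ∀ α : F.S, (α : A.P) ∈ A.tors →
      (A.coh α).hodgeNumber n i = (B.coh (F.e α)).hodgeNumber n i) : F.Matches i := by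
  have h1 : ∀ α : F.S, (α : A.P) ∈ A.tors → (α : A.P) ∈ A.V i → (F.e α : B.P) ∈ B.V i := by
    intro α ht hα
    show (B.coh (F.e α)).hodgeNumber n i ≠ 0
    rw [← h α ht]
    exact hα
  have h2 : ∀ β : F.T, (β : B.P) ∈ B.tors → (β : B.P) ∈ B.V i → (F.e.symm β : A.P) ∈ A.V i := by
    intro β ht hβ
    have ht' : (F.e.symm β : A.P) ∈ A.tors := by
      rw [F.map_tors, Homeomorph.apply_symm_apply]
      exact ht
    show (A.coh (F.e.symm β)).hodgeNumber n i ≠ 0
    rw [h _ ht', Homeomorph.apply_symm_apply]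
    exact hβ
  have hzT : B.zero ∈ F.T := by
    rw [← F.map_zero]
    exact (F.e ⟨A.zero, F.zero_S⟩).2
  have hz : (F.e.symm ⟨B.zero, hzT⟩ : A.P) = A.zero := by
    have h3 : F.e ⟨A.zero, F.zero_S⟩ = ⟨B.zero, hzT⟩ := Subtype.ext F.map_zero
    rw [← h3, Homeomorph.symm_apply_apply]
  refine ⟨?_, ?_, fun α => ⟨?_, ?_⟩⟩
  · rintro α ⟨Z, hZ, h0, hα⟩
    exact F.mem_S i Z hZ h0 hα
  · rintro β ⟨Z, hZ, h0, hβ⟩
    exact F.mem_T i Z hZ h0 hβ
  · exact transport F.e F.zero_S F.map_zero (fun Z hZ h0 => F.mem_S i Z hZ h0) (A.dense i)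
      (B.closed i) h1 α
  · intro hα
    have h4 := transport F.e.symm hzT hz (fun Z hZ h0 => F.mem_T i Z hZ h0) (B.dense i)
      (A.closed i) h2 (F.e α) hα
    rw [Homeomorph.symm_apply_apply] at h4
    exact h4

/-- The numbers `h^{n,i}` for `i ≤ 2` of twisted cohomologies. -/
theorem low_eq {X Y : Twisted n} (Φ : Transform X Y) {i : ℕ} (hi : i ≤ 2) :
    X.hodgeNumber n i = Y.hodgeNumber n i := by
  by_cases hin : n < i
  · rw [X.hodge_large (Or.inr hin), Y.hodge_large (Or.inr hin)]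
  push Not at hin
  interval_cases i
  · have h := column_sum Φ (a := n) (b := 0) (t := 0) (Or.inr rfl) (by omega)
    simpa using h
  · have h := column_sum Φ (a := n - 1) (b := 0) (t := 1) (Or.inr rfl) (by omega)
    simp only [Finset.sum_range_succ, Finset.sum_range_zero, zero_add, add_zero] at h
    rw [Nat.sub_add_cancel hin] at h
    have hX : X.hodgeNumber n 1 = X.hodgeNumber (n - 1) 0 := X.dim_eq (by omega) (by omega)
    have hY : Y.hodgeNumber n 1 = Y.hodgeNumber (n - 1) 0 := Y.dim_eq (by omega) (by omega)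
    omega
  · obtain ⟨h, -⟩ := relations Φ (p := n - 1) (q := 1) (by omega)
    have hX : X.hodgeNumber n 2 = X.hodgeNumber (n - 2) 0 := X.dim_eq (by omega) (by omega)
    have hY : Y.hodgeNumber n 2 = Y.hodgeNumber (n - 2) 0 := Y.dim_eq (by omega) (by omega)
    have hodd : ∀ Z : Twisted n, Z.oddDiagonal (n - 1) 1 = Z.hodgeNumber (n - 2) 0 := by
      intro Z
      have hm : min (n - 1) 1 + 1 = 2 := by omega
      rw [Twisted.oddDiagonal, hm, Finset.sum_filter, Finset.sum_range_succ,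
        Finset.sum_range_succ, Finset.sum_range_zero]
      simp only [Nat.not_odd_zero, if_false, odd_one, if_true, zero_add]
      congr 1
    rw [hodd, hodd] at h
    rw [hX, hY, h]

/-- The loci `V^i(ω)_0` for `i ≤ 2` and `i ≥ n`. -/
theorem low_matches {A B : LociData n} (F : Rouquier A B) {i : ℕ} (hi : i ≤ 2 ∨ n ≤ i) :
    F.Matches i := by
  rcases hi with hi | hi
  · exact matches_of F fun α ht => low_eq (F.transform α ht) hi
  rcases Nat.lt_or_ge n i with h | h
  · refine matches_of F fun α _ => ?_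
    rw [(A.coh α).hodge_large (Or.inr h), (B.coh (F.e α)).hodge_large (Or.inr h)]
  have hin : i = n := le_antisymm h hi
  subst hin
  have hA : ∀ α : A.P, α ∈ A.V0 i ↔ α = A.zero := by
    intro α
    constructor
    · rintro ⟨Z, hZ, -, hα⟩
      exact (A.top_iff α).1 (hZ.1.2 hα)
    · rintro rfl
      obtain ⟨W, hW, hW2⟩ := exists_component (S := A.V i) (isIrreducible_singleton (x := A.zero))
        (Set.singleton_subset_iff.2 ((A.top_iff _).2 rfl))
      exact ⟨W, hW, hW2 rfl, hW2 rfl⟩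
  have hB : ∀ β : B.P, β ∈ B.V0 i ↔ β = B.zero := by
    intro α
    constructor
    · rintro ⟨Z, hZ, -, hα⟩
      exact (B.top_iff α).1 (hZ.1.2 hα)
    · rintro rfl
      obtain ⟨W, hW, hW2⟩ := exists_component (S := B.V i) (isIrreducible_singleton (x := B.zero))
        (Set.singleton_subset_iff.2 ((B.top_iff _).2 rfl))
      exact ⟨W, hW, hW2 rfl, hW2 rfl⟩
  have hzT : B.zero ∈ F.T := by
    rw [← F.map_zero]
    exact (F.e ⟨A.zero, F.zero_S⟩).2
  refine ⟨fun α hα => (hA α).1 hα ▸ F.zero_S, fun β hβ => (hB β).1 hβ ▸ hzT, fun α => ?_⟩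
  rw [hA, hB]
  constructor
  · intro h1
    have h2 : α = ⟨A.zero, F.zero_S⟩ := Subtype.ext h1
    rw [h2, F.map_zero]
  · intro h1
    have h2 : F.e α = F.e ⟨A.zero, F.zero_S⟩ := Subtype.ext (h1.trans F.map_zero.symm)
    have h3 := F.e.injective h2
    rw [h3]

/-- All loci if the canonical classes have defect at most two. -/
theorem defect_matches {A B : LociData n} (F : Rouquier A B) (s : ℤ)
    (hA : ∀ α ∈ A.tors, DefectTwo (A.coh α) (s • (A.coh α).chern))
    (hB : ∀ β ∈ B.tors, DefectTwo (B.coh β) (s • (B.coh β).chern)) (i : ℕ) : F.Matches i := by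
  refine matches_of F fun α ht => main (hA α ht) (hB (F.e α) ((F.map_tors α).1 ht))
    (F.transform α ht) ?_ n i
  intro x
  rw [LinearMap.smul_apply, map_zsmul, intertwines_chern, LinearMap.smul_apply]

end Pool.Agent.R929.SL
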